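import Pool.Agent.Helper63.QP2.St1

/-!
# Project QD2 (MP_d112a4_gt), module NSH: the number of short classes of a surface group is bounded.
-/

set_option autoImplicit false

open Filter Topology Matrix Set Metric MeasureTheory
open scoped ComplexConjugate ENNReal

namespace Pool.Agent.Helper72.QP2

open Pool.Agent.Helper63.QP2
open Pool.Agent.Helper35.PM (hs Mat SL IsDiscrete SurfaceGroup Adapted IsQF HolDisc pressureDist)
open Pool.Agent.Helper20.QD (Fuch cj IsSU D DD SS)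
open Pool.Agent.Helper68.QC (nq Bel InvB Intw mob den)
open Pool.Agent.Helper68.QS (Intw2)
open Pool.Agent.Helper20.QP (Prim Cj TF FD sh ll StI StOP1 StNCL StCEN)
open Pool.Agent.Helper17.QD (Sta cc pre Thk StFPC StOPN)

theorem pNSH (hNCL : Pool.Agent.Helper20.QP.StNCL) (hLLF : Pool.Agent.Helper63.QP2.StLLF)
    (hAIN : Pool.Agent.Helper86.QA.StAIN) (hAFD : Pool.Agent.Helper86.QA.StAFD)
    (hTFR : Pool.Agent.Helper86.QA.StTFR) : Pool.Agent.Helper63.QP2.StNSH := by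
  intro g _
  by_cases hex : ∃ σ0 : SurfaceGroup g →* SL, Fuch σ0
  · obtain ⟨σ0, hσ0⟩ := hex
    have htf : ∀ (γ : SurfaceGroup g) (n : ℕ), 1 ≤ n → γ ^ n = 1 → γ = 1 := hTFR g
    obtain ⟨_, _, ⟨F1, r1, _, hF1, _⟩, _, _⟩ := hAFD (SurfaceGroup g) σ0 hσ0 htf
    obtain ⟨N, hN⟩ := hNCL (Pool.Agent.Helper86.QA.ar2 F1)
    refine ⟨N, ?_⟩
    intro σ hσ a ha
    obtain ⟨_, _, ⟨F0, r0, _, hF0, _⟩, _, _⟩ := hAFD (SurfaceGroup g) σ hσ htf
    have har : Pool.Agent.Helper86.QA.ar2 F0 = Pool.Agent.Helper86.QA.ar2 F1 :=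
      (hAIN (SurfaceGroup g) σ σ0 hσ hσ0 htf F0 F1 hF0 hF1).1
    refine hN (SurfaceGroup g) σ F0 hσ htf hF0 (le_of_eq har) a ?_
    intro i
    refine ⟨(ha i).1, ?_⟩
    have h3 := hLLF.2.2.1 (σ (a i)) (2 * Real.arsinh (1 / 128)) (ha i).2
    have h4 : 2 * Real.arsinh (1 / 128 : ℝ) / 2 = Real.arsinh (1 / 128) := by ring
    rw [h4, Real.sinh_arsinh] at h3
    refine h3.trans (le_of_eq ?_)
    norm_num
  · exact ⟨0, fun σ hσ => absurd ⟨σ, hσ⟩ hex⟩

end Pool.Agent.Helper72.QP2
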